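import Pool.Agent.Lib.MP_42de19_nt.Low.Elim

set_option autoImplicit false

namespace Pool.Agent.Results.MP_42de19_nt.LowDegreeSystems

open Pool.Agent.Lib.MP42

/-- Let `F` be a finite set of polynomials in `n` variables with rational coefficients such that
`∑_{f ∈ F} max (deg f - 1) 0 ≤ 2` (any number of linear equations and at most one cubic equation or
at most two quadratic equations). Then the closure in `ℝⁿ` of the set of common rational zeros of
the polynomials in `F` is semialgebraic over `ℚ`. -/
theorem result (n : ℕ) (F : Finset (MvPolynomial (Fin n) ℚ))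
    (hF : ∑ f ∈ F, (f.totalDegree - 1) ≤ 2) :
    Semialgebraic (ratClosure (F : Set (MvPolynomial (Fin n) ℚ))) := by
  have h := Low.sa_low F.toList.length F.toList rfl (by
    rw [Finset.sum_map_toList]; exact hF)
  have h1 : ratClosure (F : Set (MvPolynomial (Fin n) ℚ)) =
      closure (castSet (Low.zeros F.toList)) := by
    rw [Low.castSet_zeros_eq]
    congr 1
    ext f
    simp
  rw [h1]
  exact h.isSemialg

end Pool.Agent.Results.MP_42de19_nt.LowDegreeSystems
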