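import Pool.Agent.Lib.MP_42de19_nt.QF.Cover

set_option autoImplicit false

namespace Pool.Agent.Results.MP_42de19_nt.QuadraticFamilies

open Set Topology Filter Pool.Agent.Lib.MP42

/-- Let the variables `z₁, …, z_m` be divided into `r` blocks (the block of `z_i` is `b i`) and let
those in `T` be called quartic, the others quadratic. Let `G_a` be a polynomial with rational
coefficients in the variables of the `a`-th block, of degree at most two in each quadratic variable
and at most four in each quartic variable, which is a product of admissible polynomials no two of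
which have a quartic variable in common (`Cls`, `Adm`; a polynomial in which at most one quartic
variable occurs is admissible). Let `X` be the affine variety `y_j² = c_j ∏_{a ∈ S_j} G_a(z)`
(`1 ≤ j ≤ k`), `u ∏' G_a(z) = 1`, the second product being over the `a` for which `G_a` involves at
least two variables. Then the closure of `X(ℚ)` in `ℝ^(m+k+1)` is semialgebraic over `ℚ`, and so is
the closure in `ℝ^(m+k)` of the set of the rational points `(z, y)` with
`y_j² = c_j ∏_{a ∈ S_j} G_a(z)`, `∏' G_a(z) ≠ 0` and `(G₁(z), …, G_r(z)) ∈ R`, for each set `R` of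
`r`-tuples of rational numbers that is stable under multiplication of one coordinate by a nonzero
square. -/
theorem result (m r k : ℕ) (T : Finset (Fin m)) (b : Fin m → Fin r)
    (G : Fin r → MvPolynomial (Fin m) ℚ) (hb : ∀ a, ∀ i ∈ (G a).vars, b i = a)
    (h2 : ∀ a, ∀ i ∉ T, (G a).degreeOf i ≤ 2) (h4 : ∀ a i, (G a).degreeOf i ≤ 4)
    (hG : ∀ a, Cls T (G a)) (c : Fin k → ℚ) (S : Fin k → Finset (Fin r)) :
    Semialgebraic (ratClosure (Set.range (fun j =>
        MvPolynomial.rename Fin.castSucc (multiCover G c S j)) ∪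
      {MvPolynomial.X (Fin.last (m + k)) * MvPolynomial.rename Fin.castSucc
        (MvPolynomial.rename (Fin.castAdd k) (bigProd G)) - 1})) ∧
    ∀ R : Set (Fin r → ℚ),
      (∀ u ∈ R, ∀ a, ∀ l : ℚ, l ≠ 0 → Function.update u a (l ^ 2 * u a) ∈ R) →
      Semialgebraic (closure {w : Fin (m + k) → ℝ | ∃ q : Fin (m + k) → ℚ,
        (∀ j, MvPolynomial.eval q (multiCover G c S j) = 0) ∧
        (fun a => MvPolynomial.eval (fun i => q (Fin.castAdd k i)) (G a)) ∈ R ∧
        MvPolynomial.eval (fun i => q (Fin.castAdd k i)) (bigProd G) ≠ 0 ∧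
        ∀ i, w i = (q i : ℝ)}) := by
  constructor
  · have h1 := sa_localize (sa_ratCov T b G hb h2 h4 hG c S Set.univ
      (fun _ _ _ _ _ => Set.mem_univ _)) (MvPolynomial.rename (Fin.castAdd k) (bigProd G)) (by
        rintro q ⟨-, -, hq⟩
        rw [MvPolynomial.eval_rename]
        exact hq)
    have h3 : ratClosure (Set.range (fun j =>
        MvPolynomial.rename Fin.castSucc (multiCover G c S j)) ∪
        {MvPolynomial.X (Fin.last (m + k)) * MvPolynomial.rename Fin.castSucc
        (MvPolynomial.rename (Fin.castAdd k) (bigProd G)) - 1}) =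
        closure (castSet {q : Fin (m + k + 1) → ℚ | (fun i => q (Fin.castSucc i)) ∈
          ratCov G c S Set.univ ∧ q (Fin.last (m + k)) * MvPolynomial.eval
          (fun i => q (Fin.castSucc i)) (MvPolynomial.rename (Fin.castAdd k) (bigProd G)) = 1}) := by
      unfold ratClosure
      congr 1
      ext x
      constructor
      · rintro ⟨q, hq, hx⟩
        have h5 := hq _ (Or.inr rfl)
        rw [map_sub, map_mul, MvPolynomial.eval_X, MvPolynomial.eval_rename, map_one,
          sub_eq_zero] at h5
        have h6 : q (Fin.last (m + k)) * MvPolynomial.eval (fun i => q (Fin.castSucc i))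
            (MvPolynomial.rename (Fin.castAdd k) (bigProd G)) = 1 := h5
        refine ⟨q, ⟨⟨fun j => ?_, Set.mem_univ _, ?_⟩, h6⟩, hx⟩
        · have h4 := hq _ (Or.inl ⟨j, rfl⟩)
          rw [MvPolynomial.eval_rename] at h4
          exact h4
        · intro h0
          rw [MvPolynomial.eval_rename] at h6
          have h7 : MvPolynomial.eval (((fun i => q (Fin.castSucc i)) : Fin (m + k) → ℚ) ∘
            Fin.castAdd k) (bigProd G) = 0 := h0
          rw [h7, mul_zero] at h6
          exact zero_ne_one h6
      · rintro ⟨q, ⟨⟨hq1, -, -⟩, hq2⟩, hx⟩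
        refine ⟨q, ?_, hx⟩
        rintro f (⟨j, rfl⟩ | rfl)
        · show MvPolynomial.eval q (MvPolynomial.rename Fin.castSucc (multiCover G c S j)) = 0
          rw [MvPolynomial.eval_rename]
          exact hq1 j
        · rw [map_sub, map_mul, MvPolynomial.eval_X, MvPolynomial.eval_rename, map_one,
            sub_eq_zero]
          exact hq2
    rw [h3]
    exact h1.isSemialg
  · intro R hR
    have h1 := sa_ratCov T b G hb h2 h4 hG c S R hR
    have h3 : {w : Fin (m + k) → ℝ | ∃ q : Fin (m + k) → ℚ,
        (∀ j, MvPolynomial.eval q (multiCover G c S j) = 0) ∧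
        (fun a => MvPolynomial.eval (fun i => q (Fin.castAdd k i)) (G a)) ∈ R ∧
        MvPolynomial.eval (fun i => q (Fin.castAdd k i)) (bigProd G) ≠ 0 ∧
        ∀ i, w i = (q i : ℝ)} = castSet (ratCov G c S R) := by
      ext w
      constructor
      · rintro ⟨q, hq1, hq2, hq3, hw⟩; exact ⟨q, ⟨hq1, hq2, hq3⟩, hw⟩
      · rintro ⟨q, ⟨hq1, hq2, hq3⟩, hw⟩; exact ⟨q, hq1, hq2, hq3, hw⟩
    rw [h3]
    exact h1.isSemialg

end Pool.Agent.Results.MP_42de19_nt.QuadraticFamilies
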