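import Pool.Agent.Lib.MP_42de19_nt.QB.Box
import Pool.Agent.Lib.MP_42de19_nt.QB.Trace
import Pool.Agent.Lib.MP_42de19_nt.QB.Rank
import Pool.Agent.Lib.MP_42de19_nt.QB.SAB

set_option autoImplicit false

namespace Pool.Agent.Results.MP_42de19_nt.QuadricBundles

open Pool.Agent.Lib.MP42

/-- The real matrix `M(t)`. -/
noncomputable def matrixAt {N k : ℕ} (M : Matrix (Fin N) (Fin N) (MvPolynomial (Fin k) ℚ))
    (t : Fin k → ℝ) : Matrix (Fin N) (Fin N) ℝ :=
  M.map (MvPolynomial.aeval t)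

/-- The real points `(z, t)` of affine `(n + k)`-space with `(1, z) M(t) (1, z)ᵀ = 0` at which
`M(t) (1, z)ᵀ` is not zero and `M(t)` has rank at least three: the fibre over `t` is a
geometrically irreducible quadric which is smooth at `z`. -/
def bundle {n k : ℕ} (M : Matrix (Fin (n + 1)) (Fin (n + 1)) (MvPolynomial (Fin k) ℚ)) :
    Set (Fin (n + k) → ℝ) :=
  {x | ∃ (z : Fin n → ℝ) (t : Fin k → ℝ) (v : Fin (n + 1) → ℝ), x = Fin.append z t ∧
    v = Fin.cons 1 z ∧ v ⬝ᵥ (matrixAt M t).mulVec v = 0 ∧ (matrixAt M t).mulVec v ≠ 0 ∧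
    3 ≤ (matrixAt M t).rank}

/-- The points of `S` with rational coordinates. -/
def rationalPoints {m : ℕ} (S : Set (Fin m → ℝ)) : Set (Fin m → ℝ) :=
  {x | x ∈ S ∧ ∀ i, ∃ q : ℚ, x i = (q : ℝ)}

/-- The `t` in `ℚᵏ` for which `M(t)` has rank at least three and the quadratic form `M(t)` has a
rational zero which is not in the kernel of `M(t)`. -/
def isotropicParameters {N k : ℕ} (M : Matrix (Fin N) (Fin N) (MvPolynomial (Fin k) ℚ)) :
    Set (Fin k → ℝ) :=
  {t | (∀ j, ∃ q : ℚ, t j = (q : ℝ)) ∧ 3 ≤ (matrixAt M t).rank ∧ ∃ v : Fin N → ℝ,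
    (∀ i, ∃ q : ℚ, v i = (q : ℝ)) ∧ v ⬝ᵥ (matrixAt M t).mulVec v = 0 ∧
      (matrixAt M t).mulVec v ≠ 0}

/-- The `t` in `ℝᵏ` for which `M(t)` has rank at least three and is indefinite. -/
def indefiniteParameters {N k : ℕ} (M : Matrix (Fin N) (Fin N) (MvPolynomial (Fin k) ℚ)) :
    Set (Fin k → ℝ) :=
  {t | 3 ≤ (matrixAt M t).rank ∧ (∃ v, 0 < v ⬝ᵥ (matrixAt M t).mulVec v) ∧
    ∃ v, v ⬝ᵥ (matrixAt M t).mulVec v < 0}

section

variable {n k : ℕ} {M : Matrix (Fin (n + 1)) (Fin (n + 1)) (MvPolynomial (Fin k) ℚ)}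

theorem append_zp_tp (x : Fin (n + k) → ℝ) : Fin.append (QB.zp x) (QB.tp x) = x := by
  funext i
  refine Fin.addCases (fun j => ?_) (fun j => ?_) i
  · rw [Fin.append_left]; rfl
  · rw [Fin.append_right]; rfl

theorem bundle_eq (hM : M.IsSymm) : bundle M = QB.Xo M := by
  ext x
  constructor
  · rintro ⟨z, t, v, rfl, rfl, h1, h2, h3⟩
    have hz : QB.zp (Fin.append z t) = z := by
      funext i
      exact Fin.append_left _ _ _
    have ht : QB.tp (Fin.append z t) = t := by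
      funext i
      exact Fin.append_right _ _ _
    show QB.Good (QB.Mt M (QB.tp (Fin.append z t))) (Fin.cons 1 (QB.zp (Fin.append z t)))
    rw [hz, ht, QB.good_iff (QB.Mt_symm hM t)]
    exact ⟨h1, h2, h3⟩
  · intro hx
    have hx' := (QB.good_iff (QB.Mt_symm hM (QB.tp x)) _).mp hx
    exact ⟨QB.zp x, QB.tp x, _, (append_zp_tp x).symm, rfl, hx'⟩

theorem mem_ratV_iff {m : ℕ} (x : Fin m → ℝ) :
    x ∈ CubicHyp.ratV m ↔ ∀ i, ∃ q : ℚ, x i = (q : ℝ) := by
  constructor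
  · rintro ⟨q, rfl⟩ i
    exact ⟨q i, rfl⟩
  · intro h
    choose q hq using h
    exact ⟨q, funext fun i => (hq i).symm⟩

theorem rationalPoints_eq (hM : M.IsSymm) :
    rationalPoints (bundle M) = {x | x ∈ QB.Xo M ∧ x ∈ CubicHyp.ratV (n + k)} := by
  ext x
  show x ∈ bundle M ∧ _ ↔ _
  rw [bundle_eq hM, ← mem_ratV_iff]
  rfl

theorem isotropicParameters_eq {N : ℕ} {M : Matrix (Fin N) (Fin N) (MvPolynomial (Fin k) ℚ)}
    (hM : M.IsSymm) : isotropicParameters M = QB.Sm M := by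
  ext t
  constructor
  · rintro ⟨ht, h3, v, hv, h1, h2⟩
    obtain ⟨q, rfl⟩ := (mem_ratV_iff v).mpr hv
    exact ⟨(mem_ratV_iff t).mpr ht, q, (QB.good_iff (QB.Mt_symm hM t) _).mpr ⟨h1, h2, h3⟩⟩
  · rintro ⟨ht, q, hq⟩
    obtain ⟨h1, h2, h3⟩ := (QB.good_iff (QB.Mt_symm hM t) _).mp hq
    exact ⟨(mem_ratV_iff t).mp ht, h3, CubicHyp.castV q, fun i => ⟨q i, rfl⟩, h1, h2⟩

theorem indefiniteParameters_eq {N : ℕ} {M : Matrix (Fin N) (Fin N) (MvPolynomial (Fin k) ℚ)}
    (hM : M.IsSymm) : indefiniteParameters M = QB.Um M := by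
  ext t
  exact (QB.exists_good_iff (QB.Mt_symm hM t)).symm

end

/-- Let `M` be a symmetric matrix of size `n + 1` with entries in `ℚ[t₁, …, t_k]` of degree at most
two in each of the variables `t_l`, and let `X°` be the variety of the points `(z, t)` with
`(1, z) M(t) (1, z)ᵀ = 0`, `M(t) (1, z)ᵀ ≠ 0` and `rank M(t) ≥ 3`. The closure of `X°(ℚ)` in
`ℝ^(n+k)` is semialgebraic over `ℚ` and its intersection with `X°(ℝ)` is open and closed in
`X°(ℝ)`. The closure of the set of the `t` in `ℚ^k` with `rank M(t) ≥ 3` at which the form `M(t)`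
has a rational zero outside its kernel is semialgebraic over `ℚ`, and its intersection with the
open set of the `t` at which `M(t)` is indefinite of rank at least three is open. -/
theorem result (n k : ℕ) (M : Matrix (Fin (n + 1)) (Fin (n + 1)) (MvPolynomial (Fin k) ℚ))
    (hM : M.IsSymm) (hdeg : ∀ i j l, (M i j).degreeOf l ≤ 2) :
    Semialgebraic (closure (rationalPoints (bundle M))) ∧
    (∃ O : Set (Fin (n + k) → ℝ), IsOpen O ∧
      closure (rationalPoints (bundle M)) ∩ bundle M = O ∩ bundle M) ∧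
    Semialgebraic (closure (isotropicParameters M)) ∧
    IsOpen (closure (isotropicParameters M) ∩ indefiniteParameters M) := by
  have hbox := QB.box hM hdeg
  have htp : Continuous (QB.tp : (Fin (n + k) → ℝ) → (Fin k → ℝ)) :=
    continuous_pi fun j => continuous_apply _
  -- the set of parameters
  have hSU : QB.Sm M ⊆ QB.Um M := fun t ht => ⟨_, ht.2.choose_spec⟩
  have hsaS : SA (evR k) (closure (QB.Sm M) ∩ QB.Um M) := by
    refine SA.of_clopen (QB.sa_Um M) hbox isClosed_closure ?_ (Set.inter_comm _ _)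
    ext t
    constructor
    · rintro ⟨h1, h2⟩; exact ⟨h2, h1, h2⟩
    · rintro ⟨-, h⟩; exact h
  have hclS : closure (closure (QB.Sm M) ∩ QB.Um M) = closure (QB.Sm M) := by
    apply Set.Subset.antisymm
    · exact closure_minimal Set.inter_subset_left isClosed_closure
    · exact closure_mono fun t ht => ⟨subset_closure ht, hSU ht⟩
  -- the points of the bundle
  have htr := QB.closure_inter_Xo (n := n) hM
  have hO : closure {x | x ∈ QB.Xo M ∧ x ∈ CubicHyp.ratV (n + k)} ∩ QB.Xo M =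
      (QB.tp ⁻¹' (closure (QB.Sm M) ∩ QB.Um M)) ∩ QB.Xo M := by
    rw [htr]
    ext x
    constructor
    · rintro ⟨h1, h2⟩
      exact ⟨⟨h2, _, h1⟩, h1⟩
    · rintro ⟨⟨h1, -⟩, h2⟩
      exact ⟨h2, h1⟩
  have hopen : IsOpen (QB.tp (n := n) ⁻¹' (closure (QB.Sm M) ∩ QB.Um M)) :=
    hbox.preimage htp
  have hsaX : SA (evR (n + k))
      (closure {x | x ∈ QB.Xo M ∧ x ∈ CubicHyp.ratV (n + k)} ∩ QB.Xo M) := by
    refine SA.of_clopen (QB.sa_Xo M) hopen isClosed_closure ?_ (Set.inter_comm _ _)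
    rw [hO, Set.inter_comm]
  have hclX : closure (closure {x | x ∈ QB.Xo M ∧ x ∈ CubicHyp.ratV (n + k)} ∩ QB.Xo M) =
      closure {x | x ∈ QB.Xo M ∧ x ∈ CubicHyp.ratV (n + k)} := by
    apply Set.Subset.antisymm
    · exact closure_minimal Set.inter_subset_left isClosed_closure
    · exact closure_mono fun t ht => ⟨subset_closure ht, ht.1⟩
  rw [rationalPoints_eq hM, bundle_eq hM, isotropicParameters_eq hM, indefiniteParameters_eq hM]
  refine ⟨?_, ⟨_, hopen, hO⟩, ?_, hbox⟩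
  · rw [← hclX]
    exact SA.isSemialg hsaX.closure
  · rw [← hclS]
    exact SA.isSemialg hsaS.closure

end Pool.Agent.Results.MP_42de19_nt.QuadricBundles
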