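import Pool.Agent.Lib.MP_42de19_nt.Quar.Main

set_option autoImplicit false

namespace Pool.Agent.Results.MP_42de19_nt.QuarticDoubleCovers

open Pool.Agent.Lib.MP42

/-- Let `f` be a polynomial in `m` variables with rational coefficients, of total degree at most
four, and let `X` be the double cover `y² = f(x)` of affine `m`-space with the branch locus
`y = 0` removed. Then the closure of the rational points of `X` in `X(ℝ)` (with `X` embedded in
affine `(m + 2)`-space by `y² = f(x)`, `y z = 1`), the closure in `ℝ^(m+1)` of the set of the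
rational points `(y, x)` of `y² = f(x)` with `y ≠ 0`, and the closure in `ℝ^m` of the set of the
`x` in `ℚ^m` for which `f(x)` is a nonzero rational square are semialgebraic over `ℚ`. -/
theorem result (m : ℕ) (f : MvPolynomial (Fin m) ℚ) (hf : f.totalDegree ≤ 4) :
    Semialgebraic (ratClosure {MvPolynomial.rename Fin.succ (doubleCover f),
      MvPolynomial.X 0 * MvPolynomial.X 1 - 1}) ∧
    Semialgebraic (closure {v : Fin (m + 1) → ℝ | ∃ q : Fin (m + 1) → ℚ,
      MvPolynomial.eval q (doubleCover f) = 0 ∧ q 0 ≠ 0 ∧ ∀ i, v i = (q i : ℝ)}) ∧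
    Semialgebraic (closure {x : Fin m → ℝ | ∃ (q : Fin m → ℚ) (r : ℚ),
      MvPolynomial.eval q f = r ^ 2 ∧ r ≠ 0 ∧ ∀ i, x i = (q i : ℝ)}) := by
  refine ⟨SA.isSemialg (Quar.sa_openCover f hf), ?_, ?_⟩
  · have h1 : {v : Fin (m + 1) → ℝ | ∃ q : Fin (m + 1) → ℚ,
        MvPolynomial.eval q (doubleCover f) = 0 ∧ q 0 ≠ 0 ∧ ∀ i, v i = (q i : ℝ)} =
        Quar.ratCov f := by
      ext v
      constructor
      · rintro ⟨q, h, h0, hv⟩
        rw [eval_doubleCover] at h
        exact ⟨q, h0, by linarith, hv⟩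
      · rintro ⟨q, h0, h, hv⟩
        exact ⟨q, by rw [eval_doubleCover, h, sub_self], h0, hv⟩
    rw [h1]
    exact SA.isSemialg (Quar.sa_closure_ratCov f hf)
  · have h1 : {x : Fin m → ℝ | ∃ (q : Fin m → ℚ) (r : ℚ),
        MvPolynomial.eval q f = r ^ 2 ∧ r ≠ 0 ∧ ∀ i, x i = (q i : ℝ)} = Quar.sqSet f := by
      ext x
      constructor
      · rintro ⟨q, r, h, hr, hx⟩; exact ⟨q, ⟨r, hr, h⟩, hx⟩
      · rintro ⟨q, ⟨r, hr, h⟩, hx⟩; exact ⟨q, r, h, hr, hx⟩
    rw [h1]
    exact SA.isSemialg (Quar.sa_closure_sqSet f hf)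

end Pool.Agent.Results.MP_42de19_nt.QuarticDoubleCovers
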